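import Mathlib

namespace Pool.Agent.Results.MP_df7c80_co.Counter

/-- `G` has a cycle `a, l₁, …, l_k, a` on `k + 1` distinct vertices with `k + 1 ≥ 4` and
`k + 1 ≡ 1 (mod 3)`. -/
def HasCyc {V : Type} (G : SimpleGraph V) : Prop :=
  ∃ (a : V) (l : List V), (a :: l).Nodup ∧ 4 ≤ l.length + 1 ∧ (l.length + 1) % 3 = 1 ∧
    List.IsChain G.Adj (a :: (l ++ [a]))

def Saturated {V : Type} (G : SimpleGraph V) : Prop :=
  ¬ HasCyc G ∧ ∀ x y, x ≠ y → ¬ G.Adj x y → HasCyc (G ⊔ SimpleGraph.edge x y)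

/-- The least number of edges of a saturated graph on `n` vertices. -/
noncomputable def sat (n : ℕ) : ℕ :=
  sInf {e | ∃ G : SimpleGraph (Fin n), Saturated G ∧ G.edgeSet.ncard = e}

def M : Fin 15 → ℕ := ![18448, 8, 12544, 770, 4641, 16, 2048, 4096, 6156, 1048, 512, 321, 404, 4, 1]

def A (u v : Fin 15) : Bool := (M u).testBit v.val

def G : SimpleGraph (Fin 15) where
  Adj u v := A u v = true
  symm := ⟨by decide +kernel⟩
  loopless := ⟨by decide +kernel⟩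

instance : DecidableRel G.Adj := fun u v => inferInstanceAs (Decidable (A u v = true))

def W : Fin 15 → Fin 15 → List (Fin 15) :=
  ![![[], [4, 12, 2, 8, 3, 1], [11, 8, 2], [11, 8, 3], [], [11, 8, 3, 9, 4, 5], [4, 9, 3, 8, 11,
      6], [4, 12, 7], [4, 12, 8], [11, 8, 2, 12, 4, 9], [4, 9, 10], [], [11, 8, 12], [4, 9, 3, 8,
      2, 13], []],
    ![[3, 8, 2, 12, 4, 0], [], [3, 8, 2], [], [3, 9, 4], [3, 8, 2, 12, 4, 5], [3, 9, 4, 0, 11,
      6], [3, 9, 4, 0, 11, 8, 2, 12, 7], [3, 9, 4, 0, 11, 8], [3, 8, 2, 12, 4, 9], [3, 9, 10], [3,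
      8, 11], [3, 8, 12], [3, 9, 4, 12, 2, 13], [3, 8, 12, 4, 0, 14]],
    ![[8, 11, 0], [8, 3, 1], [], [12, 8, 3], [8, 12, 4], [12, 4, 5], [8, 11, 6], [8, 12, 7], [],
      [8, 3, 9], [8, 11, 0, 4, 9, 10], [12, 8, 11], [], [], [8, 3, 9, 4, 0, 14]],
    ![[8, 11, 0], [], [8, 12, 2], [], [8, 12, 4], [9, 4, 5], [8, 11, 6], [8, 12, 7], [], [], [8,
      2, 12, 4, 9, 10], [8, 2, 12, 4, 0, 11], [8, 2, 12], [8, 2, 13], [8, 2, 12, 4, 0, 14]],
    ![[], [9, 3, 1], [12, 8, 2], [12, 8, 3], [], [], [0, 11, 6], [0, 11, 8, 2, 12, 7], [0, 11,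
      8], [], [0, 11, 8, 3, 9, 10], [12, 8, 11], [], [12, 2, 13], [9, 3, 8, 11, 0, 14]],
    ![[4, 9, 3, 8, 11, 0], [4, 0, 11, 8, 3, 1], [4, 12, 2], [4, 9, 3], [], [], [4, 9, 3, 8, 11,
      6], [4, 12, 7], [4, 12, 8], [4, 0, 11, 8, 3, 9], [4, 9, 10], [4, 0, 11], [4, 0, 11, 8, 2,
      12], [4, 0, 11, 8, 2, 13], [4, 0, 14]],
    ![[11, 8, 3, 9, 4, 0], [11, 0, 4, 9, 3, 1], [11, 8, 2], [11, 8, 3], [11, 0, 4], [11, 8, 3,
      9, 4, 5], [], [11, 0, 4, 9, 3, 8, 2, 12, 7], [11, 0, 4, 9, 3, 8], [11, 8, 2, 12, 4, 9], [11,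
      8, 12, 4, 9, 10], [], [11, 8, 12], [11, 0, 4, 12, 2, 13], [11, 0, 14]],
    ![[12, 4, 0], [12, 2, 8, 11, 0, 4, 9, 3, 1], [12, 8, 2], [12, 8, 3], [12, 2, 8, 3, 9, 4],
      [12, 4, 5], [12, 2, 8, 3, 9, 4, 0, 11, 6], [], [12, 2, 8], [12, 4, 9], [12, 2, 8, 3, 9, 10],
      [12, 8, 11], [], [12, 2, 13], [12, 2, 8, 11, 0, 14]],
    ![[12, 4, 0], [2, 12, 4, 9, 3, 1], [], [], [3, 9, 4], [12, 4, 5], [3, 9, 4, 0, 11, 6], [2,
      12, 7], [], [12, 4, 9], [3, 9, 10], [], [], [12, 2, 13], [11, 0, 14]],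
    ![[3, 8, 2, 12, 4, 0], [4, 0, 11, 8, 3, 1], [3, 8, 2], [], [], [3, 8, 2, 12, 4, 5], [4, 12,
      2, 8, 11, 6], [4, 12, 7], [4, 12, 8], [], [], [3, 8, 11], [3, 8, 12], [4, 0, 11, 8, 2, 13],
      [4, 0, 14]],
    ![[9, 4, 0], [9, 3, 1], [9, 4, 0, 11, 8, 2], [9, 4, 0, 11, 8, 3], [9, 3, 8, 2, 12, 4], [9,
      4, 5], [9, 4, 12, 8, 11, 6], [9, 3, 8, 2, 12, 7], [9, 3, 8], [], [], [9, 4, 12, 2, 8, 11],
      [9, 4, 12], [9, 3, 8, 12, 2, 13], [9, 3, 8, 11, 0, 14]],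
    ![[], [8, 3, 1], [8, 12, 2], [8, 2, 12, 4, 9, 3], [8, 12, 4], [0, 4, 5], [], [8, 12, 7], [],
      [8, 3, 9], [8, 2, 12, 4, 9, 10], [], [8, 2, 12], [8, 2, 13], [8, 3, 9, 4, 0, 14]],
    ![[8, 11, 0], [8, 3, 1], [], [2, 8, 3], [], [2, 8, 3, 9, 4, 5], [8, 11, 6], [], [], [8, 3,
      9], [4, 9, 10], [2, 8, 11], [], [8, 2, 13], [4, 0, 14]],
    ![[2, 8, 3, 9, 4, 0], [2, 12, 4, 9, 3, 1], [], [2, 8, 3], [2, 12, 4], [2, 8, 3, 9, 4, 5],
      [2, 12, 4, 0, 11, 6], [2, 12, 7], [2, 12, 8], [2, 8, 11, 0, 4, 9], [2, 8, 12, 4, 9, 10], [2,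
      8, 11], [2, 8, 12], [], [2, 8, 12, 4, 0, 14]],
    ![[], [0, 4, 12, 8, 3, 1], [0, 4, 9, 3, 8, 2], [0, 4, 12, 2, 8, 3], [0, 11, 8, 3, 9, 4], [0,
      4, 5], [0, 11, 6], [0, 11, 8, 2, 12, 7], [0, 11, 8], [0, 4, 9], [0, 11, 8, 3, 9, 10], [0, 4,
      9, 3, 8, 11], [0, 4, 12], [0, 11, 8, 12, 2, 13], []]]

lemma hW : ∀ x y : Fin 15, x ≠ y → ¬ G.Adj x y → (x :: W x y).Nodup ∧ 4 ≤ (W x y).length + 1 ∧
    ((W x y).length + 1) % 3 = 1 ∧
    List.IsChain (fun u v => G.Adj u v ∨ (u = y ∧ v = x)) (x :: (W x y ++ [x])) := by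
  decide +kernel

def chk (a : Fin 15) : ℕ → Fin 15 → List (Fin 15) → ℕ → Bool
  | 0, _, _, _ => false
  | f + 1, c, vis, n => !(A c a && decide (4 ≤ n + 1) && decide ((n + 1) % 3 = 1)) &&
      (List.finRange 15).all (fun w => !A c w || decide (w ∈ vis) || chk a f w (w :: vis) (n + 1))

lemma chk_sound (a : Fin 15) (l : List (Fin 15)) : ∀ (f : ℕ) (c : Fin 15) (vis : List (Fin 15))
    (n : ℕ), chk a f c vis n = true → l.Nodup → (∀ w ∈ l, w ∉ vis) →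
    List.IsChain G.Adj (c :: (l ++ [a])) → 4 ≤ n + l.length + 1 → (n + l.length + 1) % 3 ≠ 1 := by
  induction l with
  | nil =>
    intro f c vis n h _ _ hc h4 h3
    cases f with
    | zero => simp [chk] at h
    | succ f =>
      have : A c a = true := by simpa [G] using hc
      simp only [List.length_nil, add_zero] at h4 h3
      simp [chk, this, h4, h3] at h
  | cons w l ih =>
    intro f c vis n h hn hv hc h4
    cases f with
    | zero => simp [chk] at h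
    | succ f =>
      rw [List.cons_append, List.isChain_cons_cons] at hc
      have h1 : A c w = true := hc.1
      simp only [chk, Bool.and_eq_true, List.all_eq_true] at h
      have h2 := h.2 w (List.mem_finRange w)
      have h3 : w ∉ vis := hv w (by simp)
      simp only [h1, h3, Bool.not_true, decide_false, Bool.or_self, Bool.false_or] at h2
      rw [List.nodup_cons] at hn
      have := ih f w (w :: vis) (n + 1) h2 hn.2 (fun u hu => by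
        rw [List.mem_cons, not_or]
        exact ⟨fun e => hn.1 (e ▸ hu), hv u (by simp [hu])⟩) hc.2
        (by simp only [List.length_cons] at h4; omega)
      simp only [List.length_cons]
      rwa [show n + (l.length + 1) + 1 = n + 1 + l.length + 1 by omega]

lemma hchk : ∀ a : Fin 15, chk a 16 a [a] 0 = true := by decide +kernel

lemma satG : Saturated G := by
  constructor
  · rintro ⟨a, l, h1, h2, h3, h4⟩
    rw [List.nodup_cons] at h1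
    exact chk_sound a l 16 a [a] 0 (hchk a) h1.2
      (fun w hw e => h1.1 (List.mem_singleton.1 e ▸ hw)) h4 (by omega) (by omega)
  · intro x y h1 h2
    obtain ⟨a, b, c, d⟩ := hW x y h1 h2
    refine ⟨x, W x y, a, b, c, d.imp ?_⟩
    rintro u v (h | ⟨rfl, rfl⟩)
    · exact Or.inl h
    · exact Or.inr (by simp [SimpleGraph.edge_adj, h1.symm])

theorem result : ∃ n : ℕ, 1 ≤ n ∧ (sat n : ℤ) < ⌈(5 * n / 4 - 3 / 2 : ℚ)⌉ := by
  refine ⟨15, by omega, ?_⟩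
  have h1 : G.edgeSet.ncard = 17 := by
    rw [← SimpleGraph.coe_edgeFinset, Set.ncard_coe_finset]
    decide +kernel
  have h2 : sat 15 ≤ 17 := Nat.sInf_le ⟨G, satG, h1⟩
  rw [Int.lt_ceil]
  have : (sat 15 : ℚ) ≤ 17 := by exact_mod_cast h2
  push_cast
  linarith

end Pool.Agent.Results.MP_df7c80_co.Counter
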